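import Mathlib

/-!
# A homogeneous cone which is not a rank-one generated hyperbolicity cone

The dual Vinberg cone `K = {x ∈ ℝ⁵ : [x₀ x₁; x₁ x₃] ⪰ 0 and [x₀ x₂; x₂ x₄] ⪰ 0}` is homogeneous. Let
`K` be the hyperbolicity cone of a polynomial `p` along `e`. Then `p` vanishes on the boundary of `K`,
hence on both quadrics `x₀ x₃ = x₁²` and `x₀ x₄ = x₂²` (outside `x₀ = 0`). The vectors
`v = (1, b, b', b², b'²)` generate extreme rays of `K`; for suitable `b`, `b'` the line
`t ↦ t e - v` meets the two quadrics at two different points with `t > 0`, so that `v` has at least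
two nonzero eigenvalues.
-/

set_option autoImplicit false

namespace Pool.Agent.Results.MP_3ab8ef_ag.DualVinbergCone

open MvPolynomial

/-- The univariate polynomial `t ↦ p (t e - x)`. -/
noncomputable def linePoly {n : ℕ} (p : MvPolynomial (Fin n) ℝ) (e x : Fin n → ℝ) :
    Polynomial ℝ :=
  aeval (fun i => Polynomial.C (e i) * Polynomial.X - Polynomial.C (x i)) p

/-- `p`, homogeneous of degree `d`, is hyperbolic along `e`: `p e > 0` and for every real `x` all
complex roots `t` of `p (x - t e)` are real. -/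
structure IsHyperbolic {n : ℕ} (p : MvPolynomial (Fin n) ℝ) (d : ℕ) (e : Fin n → ℝ) : Prop where
  homogeneous : p.IsHomogeneous d
  pos : 0 < eval e p
  real_roots : ∀ (x : Fin n → ℝ) (t : ℂ),
    aeval (fun i => (x i : ℂ) - t * (e i : ℂ)) p = 0 → t.im = 0

/-- The hyperbolicity cone: the `x` for which all roots of `t ↦ p (t e - x)` are nonnegative. -/
def hypCone {n : ℕ} (p : MvPolynomial (Fin n) ℝ) (e : Fin n → ℝ) : Set (Fin n → ℝ) :=
  {x | ∀ t : ℝ, eval (fun i => t * e i - x i) p = 0 → 0 ≤ t}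

/-- The rank of `x`: the number of nonzero eigenvalues, i.e. of nonzero roots of
`t ↦ p (t e - x)`, counted with multiplicity. -/
noncomputable def rank {n : ℕ} (p : MvPolynomial (Fin n) ℝ) (e x : Fin n → ℝ) : ℕ :=
  ((linePoly p e x).roots.filter (fun t => t ≠ 0)).card

/-- Convex cones: nonempty sets closed under addition and multiplication by nonnegative reals. -/
structure IsConvexCone {n : ℕ} (K : Set (Fin n → ℝ)) : Prop where
  zero_mem : (0 : Fin n → ℝ) ∈ K
  add_mem : ∀ x ∈ K, ∀ y ∈ K, x + y ∈ K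
  smul_mem : ∀ t : ℝ, 0 ≤ t → ∀ x ∈ K, t • x ∈ K

/-- The ray generated by `v`. -/
def ray {n : ℕ} (v : Fin n → ℝ) : Set (Fin n → ℝ) := {x | ∃ t : ℝ, 0 ≤ t ∧ x = t • v}

/-- `v` generates an extreme ray of `K`: `v ≠ 0` and the ray of `v` is a face of `K`. -/
structure GeneratesExtremeRay {n : ℕ} (K : Set (Fin n → ℝ)) (v : Fin n → ℝ) : Prop where
  ne_zero : v ≠ 0
  subset : ray v ⊆ K
  face : ∀ x ∈ K, ∀ y ∈ K, x + y ∈ ray v → x ∈ ray v ∧ y ∈ ray v

/-- Homogeneous cones: closed convex cones, pointed and with nonempty interior, whose linear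
automorphisms act transitively on the interior. -/
structure IsHomogeneousCone {n : ℕ} (K : Set (Fin n → ℝ)) : Prop where
  closed : IsClosed K
  cone : IsConvexCone K
  pointed : ∀ x, x ∈ K → -x ∈ K → x = 0
  full : (interior K).Nonempty
  transitive : ∀ x ∈ interior K, ∀ y ∈ interior K,
    ∃ A : (Fin n → ℝ) ≃ₗ[ℝ] (Fin n → ℝ), A '' K = K ∧ A x = y

/-- `K` is a rank-one generated hyperbolicity cone: for some `p` hyperbolic along some `e`, it is
the hyperbolicity cone of `p` along `e`, and every extreme ray is generated by an element of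
rank one. -/
def IsROG {n : ℕ} (K : Set (Fin n → ℝ)) : Prop :=
  ∃ (p : MvPolynomial (Fin n) ℝ) (d : ℕ) (e : Fin n → ℝ), IsHyperbolic p d e ∧ K = hypCone p e ∧
    ∀ v, GeneratesExtremeRay K v → ∃ c : ℝ, 0 < c ∧ rank p e (c • v) = 1

/-- The dual Vinberg cone. -/
def cone : Set (Fin 5 → ℝ) :=
  {x | 0 ≤ x 0 ∧ 0 ≤ x 3 ∧ 0 ≤ x 4 ∧ x 1 ^ 2 ≤ x 0 * x 3 ∧ x 2 ^ 2 ≤ x 0 * x 4}

/-- Its interior. -/
def openCone : Set (Fin 5 → ℝ) :=
  {x | 0 < x 0 ∧ 0 < x 3 ∧ 0 < x 4 ∧ x 1 ^ 2 < x 0 * x 3 ∧ x 2 ^ 2 < x 0 * x 4}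

theorem isClosed_cone : IsClosed cone := by
  have : cone = {x : Fin 5 → ℝ | 0 ≤ x 0} ∩ {x | 0 ≤ x 3} ∩ {x | 0 ≤ x 4} ∩
      {x | x 1 ^ 2 ≤ x 0 * x 3} ∩ {x | x 2 ^ 2 ≤ x 0 * x 4} := by
    ext x; simp [cone, and_assoc]
  rw [this]
  refine IsClosed.inter (IsClosed.inter (IsClosed.inter (IsClosed.inter ?_ ?_) ?_) ?_) ?_
  all_goals exact isClosed_le (by fun_prop) (by fun_prop)

/-- the determinant of a sum of two positive semidefinite `2 × 2` matrices -/
theorem det_add {a b c a' b' c' : ℝ} (ha : 0 ≤ a) (hc : 0 ≤ c) (h : b ^ 2 ≤ a * c)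
    (ha' : 0 ≤ a') (hc' : 0 ≤ c') (h' : b' ^ 2 ≤ a' * c') :
    (a * c - b ^ 2) + (a' * c' - b' ^ 2) ≤ (a + a') * (c + c') - (b + b') ^ 2 := by
  have h1 : (2 * (b * b')) ^ 2 ≤ (a * c' + a' * c) ^ 2 := by
    have h2 : (b * b') ^ 2 ≤ (a * c) * (a' * c') := by
      rw [mul_pow]
      exact mul_le_mul h h' (sq_nonneg _) (mul_nonneg ha hc)
    nlinarith [sq_nonneg (a * c' - a' * c)]
  have h3 : 2 * (b * b') ≤ a * c' + a' * c :=
    le_of_abs_le ((abs_le_abs_of_sq_le h1).trans_eq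
      (abs_of_nonneg (add_nonneg (mul_nonneg ha hc') (mul_nonneg ha' hc))))
  nlinarith
where
  abs_le_abs_of_sq_le {u v : ℝ} (h : u ^ 2 ≤ v ^ 2) : |u| ≤ |v| := sq_le_sq.mp h

theorem convexCone_cone : IsConvexCone cone := by
  refine ⟨by simp [cone], ?_, ?_⟩
  · rintro x ⟨x0, x3, x4, x1, x2⟩ y ⟨y0, y3, y4, y1, y2⟩
    refine ⟨?_, ?_, ?_, ?_, ?_⟩
    · exact add_nonneg x0 y0
    · exact add_nonneg x3 y3
    · exact add_nonneg x4 y4
    · have := det_add x0 x3 x1 y0 y3 y1
      simp only [Pi.add_apply]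
      linarith
    · have := det_add x0 x4 x2 y0 y4 y2
      simp only [Pi.add_apply]
      linarith
  · rintro t ht x ⟨x0, x3, x4, x1, x2⟩
    refine ⟨?_, ?_, ?_, ?_, ?_⟩
    · exact mul_nonneg ht x0
    · exact mul_nonneg ht x3
    · exact mul_nonneg ht x4
    · simp only [Pi.smul_apply, smul_eq_mul]
      nlinarith [mul_le_mul_of_nonneg_left x1 (mul_nonneg ht ht)]
    · simp only [Pi.smul_apply, smul_eq_mul]
      nlinarith [mul_le_mul_of_nonneg_left x2 (mul_nonneg ht ht)]

theorem pointed_cone (x : Fin 5 → ℝ) (h : x ∈ cone) (h' : -x ∈ cone) : x = 0 := by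
  obtain ⟨x0, x3, x4, x1, x2⟩ := h
  obtain ⟨y0, y3, y4, y1, y2⟩ := h'
  simp only [Pi.neg_apply] at y0 y3 y4 y1 y2
  have e0 : x 0 = 0 := by linarith
  have e3 : x 3 = 0 := by linarith
  have e4 : x 4 = 0 := by linarith
  have e1 : x 1 = 0 := by rw [e0, zero_mul] at x1; nlinarith
  have e2 : x 2 = 0 := by rw [e0, zero_mul] at x2; nlinarith
  funext i
  fin_cases i <;> simp [e0, e1, e2, e3, e4]

theorem isOpen_openCone : IsOpen openCone := by
  have : openCone = {x : Fin 5 → ℝ | 0 < x 0} ∩ {x | 0 < x 3} ∩ {x | 0 < x 4} ∩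
      {x | x 1 ^ 2 < x 0 * x 3} ∩ {x | x 2 ^ 2 < x 0 * x 4} := by
    ext x; simp [openCone, and_assoc]
  rw [this]
  refine IsOpen.inter (IsOpen.inter (IsOpen.inter (IsOpen.inter ?_ ?_) ?_) ?_) ?_
  all_goals exact isOpen_lt (by fun_prop) (by fun_prop)

/-- the base point of the interior -/
def base : Fin 5 → ℝ := ![1, 0, 0, 1, 1]

theorem base_mem : base ∈ openCone := by
  simp [base, openCone]

theorem openCone_subset : openCone ⊆ cone := fun _ h =>
  ⟨h.1.le, h.2.1.le, h.2.2.1.le, h.2.2.2.1.le, h.2.2.2.2.le⟩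

/-- a point of the cone plus a point of the open cone -/
theorem add_mem_openCone {x y : Fin 5 → ℝ} (hx : x ∈ cone) (hy : y ∈ openCone) :
    x + y ∈ openCone := by
  obtain ⟨x0, x3, x4, x1, x2⟩ := hx
  obtain ⟨y0, y3, y4, y1, y2⟩ := hy
  refine ⟨?_, ?_, ?_, ?_, ?_⟩
  · exact add_pos_of_nonneg_of_pos x0 y0
  · exact add_pos_of_nonneg_of_pos x3 y3
  · exact add_pos_of_nonneg_of_pos x4 y4
  · have := det_add x0 x3 x1 y0.le y3.le y1.le
    simp only [Pi.add_apply]
    linarith
  · have := det_add x0 x4 x2 y0.le y4.le y2.le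
    simp only [Pi.add_apply]
    linarith

theorem smul_mem_openCone {t : ℝ} (ht : 0 < t) {x : Fin 5 → ℝ} (hx : x ∈ openCone) :
    t • x ∈ openCone := by
  obtain ⟨x0, x3, x4, x1, x2⟩ := hx
  refine ⟨mul_pos ht x0, mul_pos ht x3, mul_pos ht x4, ?_, ?_⟩
  · simp only [Pi.smul_apply, smul_eq_mul]
    nlinarith [mul_lt_mul_of_pos_left x1 (mul_pos ht ht)]
  · simp only [Pi.smul_apply, smul_eq_mul]
    nlinarith [mul_lt_mul_of_pos_left x2 (mul_pos ht ht)]

theorem interior_cone : interior cone = openCone := by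
  apply Set.Subset.antisymm
  · intro x hx
    -- `x - s • base` is in the cone for some `s > 0`
    have hc : Filter.Tendsto (fun s : ℝ => x - s • base) (nhds 0) (nhds x) := by
      have : Continuous (fun s : ℝ => x - s • base) := by fun_prop
      simpa using this.tendsto 0
    have h1 := hc.eventually (mem_interior_iff_mem_nhds.mp hx)
    obtain ⟨s, hs, hs0⟩ := (h1.filter_mono nhdsWithin_le_nhds |>.and
      (self_mem_nhdsWithin (a := (0 : ℝ)) (s := Set.Ioi 0))).exists
    have h2 := add_mem_openCone hs (smul_mem_openCone hs0 base_mem)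
    simpa using h2
  · exact interior_maximal openCone_subset isOpen_openCone

/-- the linear map which sends the base point to `(a², a b, a c, b² + α², c² + β²)` -/
def tri (a b c α β : ℝ) : (Fin 5 → ℝ) →ₗ[ℝ] (Fin 5 → ℝ) where
  toFun z := ![a ^ 2 * z 0, a * b * z 0 + a * α * z 1, a * c * z 0 + a * β * z 2,
    b ^ 2 * z 0 + 2 * b * α * z 1 + α ^ 2 * z 3, c ^ 2 * z 0 + 2 * c * β * z 2 + β ^ 2 * z 4]
  map_add' x y := by
    funext i
    fin_cases i <;> simp <;> ring
  map_smul' t x := by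
    funext i
    fin_cases i <;> simp <;> ring

theorem tri_comp {a b c α β : ℝ} (ha : a ≠ 0) (hα : α ≠ 0) (hβ : β ≠ 0) (z : Fin 5 → ℝ) :
    tri a⁻¹ (-b / (a * α)) (-c / (a * β)) α⁻¹ β⁻¹ (tri a b c α β z) = z := by
  funext i
  fin_cases i <;> simp [tri] <;> field_simp <;> ring

theorem tri_comp' {a b c α β : ℝ} (ha : a ≠ 0) (hα : α ≠ 0) (hβ : β ≠ 0) (z : Fin 5 → ℝ) :
    tri a b c α β (tri a⁻¹ (-b / (a * α)) (-c / (a * β)) α⁻¹ β⁻¹ z) = z := by
  funext i
  fin_cases i <;> simp [tri] <;> field_simp <;> ring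

theorem tri_mem {a b c α β : ℝ} {z : Fin 5 → ℝ} (hz : z ∈ cone) : tri a b c α β z ∈ cone := by
  obtain ⟨z0, z3, z4, z1, z2⟩ := hz
  have key : ∀ b α u v w : ℝ, 0 ≤ u → 0 ≤ w → v ^ 2 ≤ u * w →
      0 ≤ b ^ 2 * u + 2 * b * α * v + α ^ 2 * w := by
    intro b α u v w hu hw h
    rcases hu.eq_or_lt with h0 | h0
    · have hv : v = 0 := by rw [← h0, zero_mul] at h; nlinarith
      have h1 : b ^ 2 * 0 + 2 * b * α * 0 + α ^ 2 * w = α ^ 2 * w := by ring
      rw [← h0, hv, h1]
      positivity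
    · have : 0 ≤ u * (b ^ 2 * u + 2 * b * α * v + α ^ 2 * w) := by
        nlinarith [sq_nonneg (b * u + α * v), mul_nonneg (sq_nonneg α) (sub_nonneg.mpr h)]
      exact nonneg_of_mul_nonneg_right this h0
  refine ⟨?_, ?_, ?_, ?_, ?_⟩
  · simp only [tri, LinearMap.coe_mk, AddHom.coe_mk]
    simp
    positivity
  · simpa [tri] using key b α _ _ _ z0 z3 z1
  · simpa [tri] using key c β _ _ _ z0 z4 z2
  · simp [tri]
    nlinarith [mul_nonneg (mul_nonneg (sq_nonneg a) (sq_nonneg α)) (sub_nonneg.mpr z1)]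
  · simp [tri]
    nlinarith [mul_nonneg (mul_nonneg (sq_nonneg a) (sq_nonneg β)) (sub_nonneg.mpr z2)]

/-- every point of the open cone is the image of the base point under an automorphism -/
theorem exists_aut {x : Fin 5 → ℝ} (hx : x ∈ openCone) :
    ∃ A : (Fin 5 → ℝ) ≃ₗ[ℝ] (Fin 5 → ℝ), A '' cone = cone ∧ A base = x := by
  obtain ⟨x0, x3, x4, x1, x2⟩ := hx
  set a := Real.sqrt (x 0) with ha
  have ha0 : 0 < a := Real.sqrt_pos.mpr x0
  have ha2 : a ^ 2 = x 0 := Real.sq_sqrt x0.le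
  have h3 : 0 < x 3 - (x 1 / a) ^ 2 := by
    rw [div_pow, ha2, sub_pos, div_lt_iff₀ x0]; linarith
  have h4 : 0 < x 4 - (x 2 / a) ^ 2 := by
    rw [div_pow, ha2, sub_pos, div_lt_iff₀ x0]; linarith
  set α := Real.sqrt (x 3 - (x 1 / a) ^ 2) with hα
  set β := Real.sqrt (x 4 - (x 2 / a) ^ 2) with hβ
  have hα0 : 0 < α := Real.sqrt_pos.mpr h3
  have hβ0 : 0 < β := Real.sqrt_pos.mpr h4
  have hα2 : α ^ 2 = x 3 - (x 1 / a) ^ 2 := Real.sq_sqrt h3.le
  have hβ2 : β ^ 2 = x 4 - (x 2 / a) ^ 2 := Real.sq_sqrt h4.le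
  set T := tri a (x 1 / a) (x 2 / a) α β with hT
  set T' := tri a⁻¹ (-(x 1 / a) / (a * α)) (-(x 2 / a) / (a * β)) α⁻¹ β⁻¹ with hT'
  have hTT : ∀ z, T' (T z) = z := tri_comp ha0.ne' hα0.ne' hβ0.ne'
  have hTT' : ∀ z, T (T' z) = z := tri_comp' ha0.ne' hα0.ne' hβ0.ne'
  let A : (Fin 5 → ℝ) ≃ₗ[ℝ] (Fin 5 → ℝ) :=
    LinearEquiv.ofLinearMap T T' (LinearMap.ext hTT') (LinearMap.ext hTT)
  refine ⟨A, ?_, ?_⟩
  · apply Set.Subset.antisymm
    · rintro _ ⟨z, hz, rfl⟩
      exact tri_mem hz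
    · intro z hz
      exact ⟨T' z, tri_mem hz, hTT' z⟩
  · show T base = x
    funext i
    fin_cases i
    · simp [hT, tri, base, ha2]
    · simp [hT, tri, base]; field_simp
    · simp [hT, tri, base]; field_simp
    · simp [hT, tri, base, hα2]
    · simp [hT, tri, base, hβ2]

theorem homogeneous_cone : IsHomogeneousCone cone where
  closed := isClosed_cone
  cone := convexCone_cone
  pointed := pointed_cone
  full := by rw [interior_cone]; exact ⟨base, base_mem⟩
  transitive := by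
    intro x hx y hy
    rw [interior_cone] at hx hy
    obtain ⟨A, hA, hAx⟩ := exists_aut hx
    obtain ⟨B, hB, hBy⟩ := exists_aut hy
    refine ⟨A.symm.trans B, ?_, ?_⟩
    · have h1 : A.symm '' cone = cone := by
        conv_lhs => rw [← hA]
        rw [← Set.image_comp]
        convert Set.image_id cone
        funext z; simp
      have h2 : (A.symm.trans B) '' cone = B '' (A.symm '' cone) := by
        rw [← Set.image_comp]; rfl
      rw [h2, h1, hB]
    · rw [LinearEquiv.trans_apply, ← hAx, LinearEquiv.symm_apply_apply, hBy]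

/-! ### Polynomials whose hyperbolicity cone is the dual Vinberg cone -/

theorem eval_linePoly {n : ℕ} (p : MvPolynomial (Fin n) ℝ) (e x : Fin n → ℝ) (t : ℝ) :
    (linePoly p e x).eval t = eval (fun i => t * e i - x i) p := by
  rw [linePoly, ← Polynomial.coe_evalRingHom]
  rw [show (aeval (fun i => Polynomial.C (e i) * Polynomial.X - Polynomial.C (x i))) p
      = eval₂ (Polynomial.C) (fun i => Polynomial.C (e i) * Polynomial.X - Polynomial.C (x i)) p
      from rfl]
  rw [MvPolynomial.hom_eval₂]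
  simp only [Polynomial.coe_evalRingHom, Polynomial.eval_sub, Polynomial.eval_mul,
    Polynomial.eval_C, Polynomial.eval_X]
  rw [MvPolynomial.eval, MvPolynomial.coe_eval₂Hom]
  congr 1
  · ext a; simp
  · funext i; ring

theorem eval_smul {n : ℕ} {p : MvPolynomial (Fin n) ℝ} {d : ℕ} (hp : p.IsHomogeneous d) (c : ℝ)
    (y : Fin n → ℝ) : eval (fun i => c * y i) p = c ^ d * eval y p := by
  rw [MvPolynomial.eval_eq', MvPolynomial.eval_eq', Finset.mul_sum]
  refine Finset.sum_congr rfl fun s hs => ?_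
  have h : ∑ i, s i = d := by
    have h1 := hp.degree_eq_sum_deg_support hs
    rw [h1]
    symm
    exact Finset.sum_subset (Finset.subset_univ _) (fun i _ hi => by
      simpa using hi)
  simp only [mul_pow, Finset.prod_mul_distrib, Finset.prod_pow_eq_pow_sum, h]
  ring

theorem eval_neg {n : ℕ} {p : MvPolynomial (Fin n) ℝ} {d : ℕ} (hp : p.IsHomogeneous d)
    (y : Fin n → ℝ) : eval (fun i => - y i) p = (-1) ^ d * eval y p := by
  rw [← eval_smul hp]
  congr 2
  funext i
  ring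

section
variable {n : ℕ} {p : MvPolynomial (Fin n) ℝ} {d : ℕ} {e : Fin n → ℝ}

theorem linePoly_ne_zero (hp : IsHyperbolic p d e) (x : Fin n → ℝ) : linePoly p e x ≠ 0 := by
  intro h0
  have h1 : ∀ t : ℝ, eval (fun i => t * e i - x i) p = 0 := by
    intro t; rw [← eval_linePoly, h0]; simp
  have h2 : linePoly p (fun i => - x i) (fun i => - e i) = 0 := by
    apply Polynomial.eq_zero_of_infinite_isRoot
    refine Set.Infinite.mono ?_ (Set.Ioi_infinite (0 : ℝ))
    intro s hs
    have hs' : s ≠ 0 := ne_of_gt hs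
    show (linePoly p (fun i => - x i) (fun i => - e i)).eval s = 0
    rw [eval_linePoly]
    have h3 := eval_smul hp.homogeneous s (fun i => s⁻¹ * e i - x i)
    rw [h1 s⁻¹, mul_zero] at h3
    rw [← h3]
    congr 2
    funext i
    field_simp
    ring
  have h3 := eval_linePoly p (fun i => - x i) (fun i => - e i) 0
  rw [h2] at h3
  simp only [Polynomial.eval_zero, zero_mul, zero_sub, neg_neg] at h3
  have := hp.pos
  linarith

theorem exists_big (hp : IsHyperbolic p d e) (x : Fin n → ℝ) :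
    ∃ B : ℝ, ∀ t : ℝ, B ≤ t → t • e + x ∈ hypCone p e := by
  obtain ⟨m, hm⟩ := (linePoly p e x).roots.toFinset.bddBelow
  refine ⟨-m, fun t ht s hs => ?_⟩
  have h1 : (linePoly p e x).eval (s - t) = 0 := by
    rw [eval_linePoly, ← hs]
    congr 2
    funext i
    simp only [Pi.add_apply, Pi.smul_apply, smul_eq_mul]
    ring
  have h2 : s - t ∈ (linePoly p e x).roots.toFinset := by
    rw [Multiset.mem_toFinset, Polynomial.mem_roots (linePoly_ne_zero hp x)]
    exact h1
  have h3 : m ≤ s - t := hm h2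
  linarith

theorem exists_pos_le (s : Finset ℝ) (hs : ∀ r ∈ s, 0 < r) : ∃ ε : ℝ, 0 < ε ∧ ∀ r ∈ s, ε ≤ r := by
  classical
  induction s using Finset.induction_on with
  | empty => exact ⟨1, one_pos, by simp⟩
  | insert a s _ ih =>
    obtain ⟨ε, hε, h⟩ := ih (fun r hr => hs r (Finset.mem_insert_of_mem hr))
    refine ⟨min ε a, lt_min hε (hs a (Finset.mem_insert_self _ _)), ?_⟩
    intro r hr
    rcases Finset.mem_insert.mp hr with rfl | hr
    · exact min_le_right _ _
    · exact (min_le_left _ _).trans (h r hr)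

/-- a point of the hyperbolicity cone where `p` does not vanish can be moved in direction `-e` -/
theorem exists_sub_mem (hp : IsHyperbolic p d e) {x : Fin n → ℝ} (hx : x ∈ hypCone p e)
    (h : eval x p ≠ 0) : ∃ ε : ℝ, 0 < ε ∧ x - ε • e ∈ hypCone p e := by
  have hpos : ∀ r ∈ (linePoly p e x).roots.toFinset, 0 < r := by
    intro r hr
    rw [Multiset.mem_toFinset, Polynomial.mem_roots (linePoly_ne_zero hp x)] at hr
    have hr' : eval (fun i => r * e i - x i) p = 0 := by rw [← eval_linePoly]; exact hr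
    refine lt_of_le_of_ne (hx r hr') ?_
    rintro rfl
    have h1 := eval_neg hp.homogeneous x
    simp only [zero_mul, zero_sub] at hr'
    rw [hr'] at h1
    rcases mul_eq_zero.mp h1.symm with h2 | h2
    · exact absurd h2 (pow_ne_zero _ (by norm_num))
    · exact h h2
  obtain ⟨ε, hε, hle⟩ := exists_pos_le _ hpos
  refine ⟨ε, hε, fun t ht => ?_⟩
  have h1 : (linePoly p e x).eval (t + ε) = 0 := by
    rw [eval_linePoly, ← ht]
    congr 2
    funext i
    simp only [Pi.sub_apply, Pi.smul_apply, smul_eq_mul]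
    ring
  have h2 : t + ε ∈ (linePoly p e x).roots.toFinset := by
    rw [Multiset.mem_toFinset, Polynomial.mem_roots (linePoly_ne_zero hp x)]
    exact h1
  have h3 := hle _ h2
  linarith

end

section
variable {p : MvPolynomial (Fin 5) ℝ} {d : ℕ} {e : Fin 5 → ℝ}

theorem e_mem (hp : IsHyperbolic p d e) (hK : cone = hypCone p e) : e ∈ openCone := by
  have key : ∀ x : Fin 5 → ℝ, ∃ t : ℝ, 0 < t ∧ t • e + x ∈ cone := by
    intro x
    obtain ⟨B, hB⟩ := exists_big hp x
    exact ⟨max B 1, lt_max_of_lt_right one_pos, by rw [hK]; exact hB _ (le_max_left _ _)⟩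
  have h0 : 0 < e 0 := by
    obtain ⟨t, ht, h⟩ := key (fun i => if i = 0 then -1 else 0)
    have h1 := h.1
    simp at h1
    by_contra hcon
    nlinarith
  have h3 : e 1 ^ 2 < e 0 * e 3 := by
    obtain ⟨t, ht, h⟩ := key (fun i => if i = 3 then -1 else 0)
    have h1 := h.2.2.2.1
    simp at h1
    have h2 : 0 < t * (e 0 * e 3 - e 1 ^ 2) := by
      have : 0 ≤ t * (t * (e 0 * e 3 - e 1 ^ 2) - e 0) := by nlinarith
      have := nonneg_of_mul_nonneg_right this ht
      linarith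
    have := pos_of_mul_pos_of_pos_left h2 ht
    linarith
  have h4 : e 2 ^ 2 < e 0 * e 4 := by
    obtain ⟨t, ht, h⟩ := key (fun i => if i = 4 then -1 else 0)
    have h1 := h.2.2.2.2
    simp at h1
    have h2 : 0 < t * (e 0 * e 4 - e 2 ^ 2) := by
      have : 0 ≤ t * (t * (e 0 * e 4 - e 2 ^ 2) - e 0) := by nlinarith
      have := nonneg_of_mul_nonneg_right this ht
      linarith
    have := pos_of_mul_pos_of_pos_left h2 ht
    linarith
  refine ⟨h0, ?_, ?_, h3, h4⟩
  · exact pos_of_mul_pos_of_pos_left (lt_of_le_of_lt (sq_nonneg _) h3) h0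
  · exact pos_of_mul_pos_of_pos_left (lt_of_le_of_lt (sq_nonneg _) h4) h0
where
  pos_of_mul_pos_of_pos_left {a b : ℝ} (h : 0 < a * b) (ha : 0 < a) : 0 < b :=
    (mul_pos_iff_of_pos_left ha).mp h

/-- `p` vanishes on the boundary of the cone -/
theorem eval_boundary (hp : IsHyperbolic p d e) (hK : cone = hypCone p e) {x : Fin 5 → ℝ}
    (hx : x ∈ cone) (hx' : x ∉ openCone) : eval x p = 0 := by
  by_contra h
  rw [hK] at hx
  obtain ⟨ε, hε, h1⟩ := exists_sub_mem hp hx h
  rw [← hK] at h1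
  apply hx'
  have := add_mem_openCone h1 (smul_mem_openCone hε (e_mem hp hK))
  simpa using this

theorem eval_quadric_one_pos (hp : IsHyperbolic p d e) (hK : cone = hypCone p e) {y : Fin 5 → ℝ}
    (h0 : 0 < y 0) (h1 : y 1 ^ 2 = y 0 * y 3) : eval y p = 0 := by
  have h3 : 0 ≤ y 3 := nonneg_of_mul_nonneg_right (by rw [← h1]; positivity) h0
  set q := linePoly p ![0, 0, 0, 0, 1] ![-y 0, -y 1, -y 2, -y 3, 0] with hq
  have hev : ∀ s : ℝ, q.eval s = eval ![y 0, y 1, y 2, y 3, s] p := by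
    intro s
    rw [hq, eval_linePoly]
    congr 2
    funext i
    fin_cases i <;> simp
  have hq0 : q = 0 := by
    apply Polynomial.eq_zero_of_infinite_isRoot
    refine Set.Infinite.mono ?_ (Set.Ici_infinite (y 2 ^ 2 / y 0))
    intro s hs
    show q.eval s = 0
    rw [hev]
    have hs' : y 2 ^ 2 ≤ y 0 * s := by
      rw [Set.mem_Ici, div_le_iff₀ h0] at hs
      linarith
    apply eval_boundary hp hK
    · refine ⟨?_, ?_, ?_, ?_, ?_⟩
      · simpa using h0.le
      · simpa using h3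
      · simpa using nonneg_of_mul_nonneg_right ((sq_nonneg _).trans hs') h0
      · simpa using h1.le
      · simpa using hs'
    · intro hcon
      have := hcon.2.2.2.1
      simp at this
      linarith
  have h4 := hev (y 4)
  rw [hq0] at h4
  rw [Polynomial.eval_zero] at h4
  rw [h4]
  congr 2
  funext i
  fin_cases i <;> simp

theorem eval_quadric_two_pos (hp : IsHyperbolic p d e) (hK : cone = hypCone p e) {y : Fin 5 → ℝ}
    (h0 : 0 < y 0) (h2 : y 2 ^ 2 = y 0 * y 4) : eval y p = 0 := by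
  have h4 : 0 ≤ y 4 := nonneg_of_mul_nonneg_right (by rw [← h2]; positivity) h0
  set q := linePoly p ![0, 0, 0, 1, 0] ![-y 0, -y 1, -y 2, 0, -y 4] with hq
  have hev : ∀ s : ℝ, q.eval s = eval ![y 0, y 1, y 2, s, y 4] p := by
    intro s
    rw [hq, eval_linePoly]
    congr 2
    funext i
    fin_cases i <;> simp
  have hq0 : q = 0 := by
    apply Polynomial.eq_zero_of_infinite_isRoot
    refine Set.Infinite.mono ?_ (Set.Ici_infinite (y 1 ^ 2 / y 0))
    intro s hs
    show q.eval s = 0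
    rw [hev]
    have hs' : y 1 ^ 2 ≤ y 0 * s := by
      rw [Set.mem_Ici, div_le_iff₀ h0] at hs
      linarith
    apply eval_boundary hp hK
    · refine ⟨?_, ?_, ?_, ?_, ?_⟩
      · simpa using h0.le
      · simpa using nonneg_of_mul_nonneg_right ((sq_nonneg _).trans hs') h0
      · simpa using h4
      · simpa using hs'
      · simpa using h2.le
    · intro hcon
      have := hcon.2.2.2.2
      simp at this
      linarith
  have h5 := hev (y 3)
  rw [hq0] at h5
  rw [Polynomial.eval_zero] at h5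
  rw [h5]
  congr 2
  funext i
  fin_cases i <;> simp

theorem eval_quadric_one (hp : IsHyperbolic p d e) (hK : cone = hypCone p e) {y : Fin 5 → ℝ}
    (h0 : y 0 ≠ 0) (h1 : y 1 ^ 2 = y 0 * y 3) : eval y p = 0 := by
  rcases h0.lt_or_gt with h | h
  · have h2 : eval (fun i => - y i) p = 0 :=
      eval_quadric_one_pos hp hK (by simpa using h) (by simpa using h1)
    rw [eval_neg hp.homogeneous] at h2
    rcases mul_eq_zero.mp h2 with h3 | h3
    · exact absurd h3 (pow_ne_zero _ (by norm_num))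
    · exact h3
  · exact eval_quadric_one_pos hp hK h h1

theorem eval_quadric_two (hp : IsHyperbolic p d e) (hK : cone = hypCone p e) {y : Fin 5 → ℝ}
    (h0 : y 0 ≠ 0) (h2 : y 2 ^ 2 = y 0 * y 4) : eval y p = 0 := by
  rcases h0.lt_or_gt with h | h
  · have h1 : eval (fun i => - y i) p = 0 :=
      eval_quadric_two_pos hp hK (by simpa using h) (by simpa using h2)
    rw [eval_neg hp.homogeneous] at h1
    rcases mul_eq_zero.mp h1 with h3 | h3
    · exact absurd h3 (pow_ne_zero _ (by norm_num))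
    · exact h3
  · exact eval_quadric_two_pos hp hK h h2

end

/-- the generators of the extreme rays which we use -/
def gen (b c : ℝ) : Fin 5 → ℝ := ![1, b, c, b ^ 2, c ^ 2]

theorem form_nonneg (b : ℝ) {u v w : ℝ} (hu : 0 ≤ u) (hw : 0 ≤ w) (h : v ^ 2 ≤ u * w) :
    0 ≤ b ^ 2 * u - 2 * b * v + w := by
  rcases hu.eq_or_lt with h0 | h0
  · have hv : v = 0 := by rw [← h0, zero_mul] at h; nlinarith
    rw [← h0, hv]
    linarith
  · have : 0 ≤ u * (b ^ 2 * u - 2 * b * v + w) := by nlinarith [sq_nonneg (b * u - v)]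
    exact nonneg_of_mul_nonneg_right this h0

theorem form_zero (b : ℝ) {u v w : ℝ} (hu : 0 ≤ u) (h : v ^ 2 ≤ u * w)
    (h0 : b ^ 2 * u - 2 * b * v + w = 0) : v = b * u ∧ w = b ^ 2 * u := by
  have h1 : (b * u - v) ^ 2 ≤ 0 := by nlinarith
  have h2 : b * u - v = 0 := by
    have := le_antisymm h1 (sq_nonneg _)
    exact pow_eq_zero_iff (two_ne_zero) |>.mp this
  refine ⟨by linarith, ?_⟩
  have : v = b * u := by linarith
  rw [this] at h0
  nlinarith

theorem gen_extreme (b c : ℝ) : GeneratesExtremeRay cone (gen b c) where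
  ne_zero := by
    intro h
    have := congrFun h 0
    simp [gen] at this
  subset := by
    rintro _ ⟨t, ht, rfl⟩
    refine ⟨?_, ?_, ?_, ?_, ?_⟩
    · simpa [gen] using ht
    · simp [gen]; positivity
    · simp [gen]; positivity
    · simp [gen]; apply le_of_eq; ring
    · simp [gen]; apply le_of_eq; ring
  face := by
    rintro x ⟨x0, x3, x4, x1, x2⟩ y ⟨y0, y3, y4, y1, y2⟩ ⟨t, ht, hxy⟩
    have e0 : x 0 + y 0 = t := by simpa [gen] using congrFun hxy 0
    have e1 : x 1 + y 1 = t * b := by simpa [gen] using congrFun hxy 1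
    have e2 : x 2 + y 2 = t * c := by simpa [gen] using congrFun hxy 2
    have e3 : x 3 + y 3 = t * b ^ 2 := by simpa [gen] using congrFun hxy 3
    have e4 : x 4 + y 4 = t * c ^ 2 := by simpa [gen] using congrFun hxy 4
    have s1 : (b ^ 2 * x 0 - 2 * b * x 1 + x 3) + (b ^ 2 * y 0 - 2 * b * y 1 + y 3) = 0 := by
      have : (b ^ 2 * x 0 - 2 * b * x 1 + x 3) + (b ^ 2 * y 0 - 2 * b * y 1 + y 3)
        = b ^ 2 * (x 0 + y 0) - 2 * b * (x 1 + y 1) + (x 3 + y 3) := by ring
      rw [this, e0, e1, e3]; ring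
    have s2 : (c ^ 2 * x 0 - 2 * c * x 2 + x 4) + (c ^ 2 * y 0 - 2 * c * y 2 + y 4) = 0 := by
      have : (c ^ 2 * x 0 - 2 * c * x 2 + x 4) + (c ^ 2 * y 0 - 2 * c * y 2 + y 4)
        = c ^ 2 * (x 0 + y 0) - 2 * c * (x 2 + y 2) + (x 4 + y 4) := by ring
      rw [this, e0, e2, e4]; ring
    have p1 := form_nonneg b x0 x3 x1
    have p2 := form_nonneg b y0 y3 y1
    have p3 := form_nonneg c x0 x4 x2
    have p4 := form_nonneg c y0 y4 y2
    obtain ⟨a1, a3⟩ := form_zero b x0 x1 (by linarith)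
    obtain ⟨b1, b3⟩ := form_zero b y0 y1 (by linarith)
    obtain ⟨a2, a4⟩ := form_zero c x0 x2 (by linarith)
    obtain ⟨b2, b4⟩ := form_zero c y0 y2 (by linarith)
    constructor
    · refine ⟨x 0, x0, ?_⟩
      funext i
      fin_cases i
      · simp [gen]
      · simp [gen]; linarith
      · simp [gen]; linarith
      · simp [gen]; linarith
      · simp [gen]; linarith
    · refine ⟨y 0, y0, ?_⟩
      funext i
      fin_cases i
      · simp [gen]
      · simp [gen]; linarith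
      · simp [gen]; linarith
      · simp [gen]; linarith
      · simp [gen]; linarith

/-- two different positive roots give rank at least two -/
theorem two_le_rank {n : ℕ} {p : MvPolynomial (Fin n) ℝ} {d : ℕ} {e : Fin n → ℝ}
    (hp : IsHyperbolic p d e) {v : Fin n → ℝ} {r s : ℝ} (hr : 0 < r) (hs : 0 < s) (hrs : r ≠ s)
    (h1 : eval (fun i => r * e i - v i) p = 0) (h2 : eval (fun i => s * e i - v i) p = 0)
    {c : ℝ} (hc : 0 < c) : 2 ≤ rank p e (c • v) := by
  classical
  have key : ∀ a : ℝ, eval (fun i => a * e i - v i) p = 0 →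
      (linePoly p e (c • v)).eval (c * a) = 0 := by
    intro a ha
    rw [eval_linePoly]
    have := eval_smul hp.homogeneous c (fun i => a * e i - v i)
    rw [ha, mul_zero] at this
    rw [← this]
    congr 2
    funext i
    simp only [Pi.smul_apply, smul_eq_mul]
    ring
  have hne := linePoly_ne_zero hp (c • v)
  have hm1 : c * r ∈ (linePoly p e (c • v)).roots.filter (fun t => t ≠ 0) := by
    rw [Multiset.mem_filter, Polynomial.mem_roots hne]
    exact ⟨key r h1, (mul_pos hc hr).ne'⟩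
  have hm2 : c * s ∈ (linePoly p e (c • v)).roots.filter (fun t => t ≠ 0) := by
    rw [Multiset.mem_filter, Polynomial.mem_roots hne]
    exact ⟨key s h2, (mul_pos hc hs).ne'⟩
  have hd : c * r ≠ c * s := fun h => hrs (mul_left_cancel₀ hc.ne' h)
  have h3 : ({c * r, c * s} : Finset ℝ) ⊆
      ((linePoly p e (c • v)).roots.filter (fun t => t ≠ 0)).toFinset := by
    intro a ha
    rw [Finset.mem_insert, Finset.mem_singleton] at ha
    rw [Multiset.mem_toFinset]
    rcases ha with rfl | rfl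
    · exact hm1
    · exact hm2
  have h4 := Finset.card_le_card h3
  rw [Finset.card_pair hd] at h4
  exact h4.trans (Multiset.toFinset_card_le _)

theorem root_one {e : Fin 5 → ℝ} (he : e ∈ openCone) {β : ℝ} (hβ : β ≠ 0) (c : ℝ) :
    let r := 1 / e 0 + e 0 * β ^ 2 / (e 0 * e 3 - e 1 ^ 2)
    let y : Fin 5 → ℝ := fun i => r * e i - gen (e 1 / e 0 + β) c i
    0 < r ∧ y 0 ≠ 0 ∧ y 1 ^ 2 = y 0 * y 3 := by
  obtain ⟨h0, _, _, h3, _⟩ := he
  have hD : 0 < e 0 * e 3 - e 1 ^ 2 := by linarith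
  intro r y
  have hβ2 : 0 < β ^ 2 := by positivity
  refine ⟨by positivity, ?_, ?_⟩
  · have : y 0 = e 0 ^ 2 * β ^ 2 / (e 0 * e 3 - e 1 ^ 2) := by
      simp only [y, r, gen, Matrix.cons_val_zero]
      field_simp
      ring
    rw [this]
    positivity
  · simp only [y, r, gen]
    simp
    field_simp
    ring

theorem root_two {e : Fin 5 → ℝ} (he : e ∈ openCone) {β : ℝ} (hβ : β ≠ 0) (b : ℝ) :
    let r := 1 / e 0 + e 0 * β ^ 2 / (e 0 * e 4 - e 2 ^ 2)
    let y : Fin 5 → ℝ := fun i => r * e i - gen b (e 2 / e 0 + β) i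
    0 < r ∧ y 0 ≠ 0 ∧ y 2 ^ 2 = y 0 * y 4 := by
  obtain ⟨h0, _, _, _, h3⟩ := he
  have hD : 0 < e 0 * e 4 - e 2 ^ 2 := by linarith
  intro r y
  have hβ2 : 0 < β ^ 2 := by positivity
  refine ⟨by positivity, ?_, ?_⟩
  · have : y 0 = e 0 ^ 2 * β ^ 2 / (e 0 * e 4 - e 2 ^ 2) := by
      simp only [y, r, gen, Matrix.cons_val_zero]
      field_simp
      ring
    rw [this]
    positivity
  · simp only [y, r, gen]
    simp
    field_simp
    ring

/-- **There is a homogeneous cone, of dimension five, which is not a rank-one generated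
hyperbolicity cone**: for every polynomial `p` hyperbolic along some `e` whose hyperbolicity cone
is this cone, some extreme ray consists of elements of rank at least two (apart from `0`). -/
theorem result : ∃ K : Set (Fin 5 → ℝ), IsHomogeneousCone K ∧ ¬ IsROG K ∧
    ∀ (p : MvPolynomial (Fin 5) ℝ) (d : ℕ) (e : Fin 5 → ℝ), IsHyperbolic p d e →
      K = hypCone p e → ∃ v, GeneratesExtremeRay K v ∧ ∀ c : ℝ, 0 < c → 2 ≤ rank p e (c • v) := by
  have main : ∀ (p : MvPolynomial (Fin 5) ℝ) (d : ℕ) (e : Fin 5 → ℝ), IsHyperbolic p d e →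
      cone = hypCone p e →
      ∃ v, GeneratesExtremeRay cone v ∧ ∀ c : ℝ, 0 < c → 2 ≤ rank p e (c • v) := by
    intro p d e hp hK
    have he := e_mem hp hK
    have h0 := he.1
    have hD1 : 0 < e 0 * e 3 - e 1 ^ 2 := by have := he.2.2.2.1; linarith
    have hD2 : 0 < e 0 * e 4 - e 2 ^ 2 := by have := he.2.2.2.2; linarith
    obtain ⟨β, hβ, hne⟩ : ∃ β : ℝ, β ≠ 0 ∧ 1 / e 0 + e 0 * β ^ 2 / (e 0 * e 3 - e 1 ^ 2)
        ≠ 1 / e 0 + e 0 * 1 ^ 2 / (e 0 * e 4 - e 2 ^ 2) := by
      by_cases h : (1 / e 0 + e 0 * 1 ^ 2 / (e 0 * e 3 - e 1 ^ 2) : ℝ)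
          = 1 / e 0 + e 0 * 1 ^ 2 / (e 0 * e 4 - e 2 ^ 2)
      · refine ⟨2, two_ne_zero, ?_⟩
        rw [← h]
        intro h'
        have h1 : e 0 * 2 ^ 2 / (e 0 * e 3 - e 1 ^ 2) = e 0 * 1 ^ 2 / (e 0 * e 3 - e 1 ^ 2) := by
          linarith
        rw [div_left_inj' hD1.ne'] at h1
        linarith
      · exact ⟨1, one_ne_zero, h⟩
    obtain ⟨r1, y1, q1⟩ := root_one he hβ (e 2 / e 0 + 1)
    obtain ⟨r2, y2, q2⟩ := root_two he one_ne_zero (e 1 / e 0 + β)
    refine ⟨gen (e 1 / e 0 + β) (e 2 / e 0 + 1), gen_extreme _ _, fun c hc => ?_⟩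
    exact two_le_rank hp r1 r2 hne (eval_quadric_one hp hK y1 q1) (eval_quadric_two hp hK y2 q2) hc
  refine ⟨cone, homogeneous_cone, ?_, main⟩
  rintro ⟨p, d, e, hp, hK, h⟩
  obtain ⟨v, hv, hr⟩ := main p d e hp hK
  obtain ⟨c, hc, h1⟩ := h v hv
  have := hr c hc
  omega

end Pool.Agent.Results.MP_3ab8ef_ag.DualVinbergCone
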